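import Mathlib

set_option autoImplicit false

namespace Pool.Agent.Results.MP_72c4d1_al.AllAffine

/-- `σ` is an affine permutation `i ↦ a i + b` with `a` a unit. -/
def IsAffine {n : ℕ} (σ : Equiv.Perm (ZMod n)) : Prop :=
  ∃ (a : (ZMod n)ˣ) (b : ZMod n), ∀ i, σ i = a * i + b

/-- The lifted dihedral group: maps `i ↦ u i + b` with `u` a unit and `u² ≡ 1 mod rad n`. -/
def liftedDihedral (n : ℕ) : Set (Equiv.Perm (ZMod n)) :=
  {π | ∃ (u : ℤ) (b : ZMod n), IsUnit (u : ZMod n) ∧
    u ^ 2 ≡ 1 [ZMOD ((∏ p ∈ n.primeFactors, p : ℕ) : ℤ)] ∧ ∀ i, π i = u * i + b}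

/-- A set of permutations is closed under products of `N` of its elements. -/
def ClosedUnder {α : Type} (N : ℕ) (C : Set (Equiv.Perm α)) : Prop :=
  ∀ l : List (Equiv.Perm α), l.length = N → (∀ x ∈ l, x ∈ C) → l.prod ∈ C

theorem aff_mul {n : ℕ} {f g : Equiv.Perm (ZMod n)} (hf : IsAffine f) (hg : IsAffine g) :
    IsAffine (f * g) := by
  obtain ⟨a, b, h⟩ := hf
  obtain ⟨c, d, k⟩ := hg
  refine ⟨a * c, a * d + b, fun i => ?_⟩
  rw [Equiv.Perm.mul_apply, h, k]; push_cast; ring

theorem aff_inv {n : ℕ} {f : Equiv.Perm (ZMod n)} (hf : IsAffine f) : IsAffine f⁻¹ := by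
  obtain ⟨a, b, h⟩ := hf
  refine ⟨a⁻¹, -((a⁻¹ : (ZMod n)ˣ) * b), fun i => ?_⟩
  apply f.injective
  rw [h ((a⁻¹ : (ZMod n)ˣ) * i + _)]
  have := a.mul_inv
  simp only [Equiv.Perm.coe_inv, Equiv.apply_symm_apply]
  linear_combination (b - i) * this

theorem aff_of_mem {n : ℕ} {f : Equiv.Perm (ZMod n)} (hf : f ∈ liftedDihedral n) :
    IsAffine f := by
  obtain ⟨u, b, hu, -, h⟩ := hf
  exact ⟨hu.unit, b, h⟩

theorem refl_mem {n : ℕ} (b : ZMod n) : Equiv.subLeft b ∈ liftedDihedral n :=
  ⟨-1, b, by simp, by simp [Int.ModEq], fun i => by simp; ring⟩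

theorem one_mem (n : ℕ) : (1 : Equiv.Perm (ZMod n)) ∈ liftedDihedral n :=
  ⟨1, 0, by simp, by simp [Int.ModEq], fun i => by simp⟩

theorem affine_of_conj {n : ℕ} (hn : Odd n) (σ : Equiv.Perm (ZMod n))
    (h : ∀ b : ZMod n, IsAffine (σ * Equiv.subLeft b * σ⁻¹)) : IsAffine σ := by
  have hn0 : NeZero n := ⟨by rintro rfl; simp at hn⟩
  obtain ⟨c, hc⟩ : ∃ c : ZMod n, 2 * c = 1 := by
    obtain ⟨k, hk⟩ := hn
    refine ⟨((k + 1 : ℕ) : ZMod n), ?_⟩
    have h0 : ((2 * k + 1 : ℕ) : ZMod n) = 0 := by rw [← hk]; simp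
    push_cast at h0 ⊢
    linear_combination h0
  obtain ⟨a, b, h1⟩ := h 0
  obtain ⟨a', b', h2⟩ := h c
  have g1 : ∀ x, σ (-x) = a * σ x + b := by
    intro x
    have := h1 (σ x)
    simpa using this
  have g2 : ∀ x, σ (c - x) = a' * σ x + b' := by
    intro x
    have := h2 (σ x)
    simpa using this
  have inv1 : ∀ y : ZMod n, a * (a * y + b) + b = y := by
    intro y
    obtain ⟨x, rfl⟩ := σ.surjective y
    rw [← g1, ← g1]; simp
  have inv2 : ∀ y : ZMod n, a' * (a' * y + b') + b' = y := by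
    intro y
    obtain ⟨x, rfl⟩ := σ.surjective y
    rw [← g2, ← g2]; simp
  have sq1 : (a : ZMod n) * a = 1 := by linear_combination inv1 1 - inv1 0
  have sq2 : (a' : ZMod n) * a' = 1 := by linear_combination inv2 1 - inv2 0
  have step : ∀ x, σ (x + c) = a' * (a * σ x + b) + b' := by
    intro x
    rw [← g1, ← g2]; congr 1; ring
  obtain ⟨t, ht⟩ : ∃ t : ZMod n, ∀ x, σ (x + 1) = σ x + t := by
    refine ⟨a' * (a * (a' * b + b') + b) + b', fun x => ?_⟩
    have e : x + 1 = x + c + c := by linear_combination -hc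
    rw [e, step, step]
    linear_combination (a' * a' * σ x) * sq1 + σ x * sq2
  have lin : ∀ k : ℕ, σ k = t * k + σ 0 := by
    intro k
    induction k with
    | zero => simp
    | succ k ih => push_cast; rw [ht, ih]; ring
  have lin' : ∀ x, σ x = t * x + σ 0 := by
    intro x
    have := lin x.val
    simpa using this
  obtain ⟨x, hx⟩ := σ.surjective (1 + σ 0)
  have hu : IsUnit t := by
    apply IsUnit.of_mul_eq_one x
    rw [lin'] at hx
    linear_combination hx
  exact ⟨hu.unit, σ 0, lin'⟩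

/-- For odd `n`, a left or right coset of the lifted dihedral group that is closed under `N`-fold
products for some `N ≥ 2` has an affine representative. -/
theorem result (n : ℕ) (hn : Odd n) (σ : Equiv.Perm (ZMod n)) (N : ℕ) (hN : 2 ≤ N)
    (h : ClosedUnder N {x | ∃ π ∈ liftedDihedral n, x = σ * π} ∨
      ClosedUnder N {x | ∃ π ∈ liftedDihedral n, x = π * σ}) : IsAffine σ := by
  obtain ⟨m, rfl⟩ := Nat.exists_eq_add_of_le hN
  rcases h with h | h
  · have key : ∀ π ∈ liftedDihedral n, IsAffine (σ * π * σ ^ m) := by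
      intro π hπ
      obtain ⟨ρ, hρ, e⟩ := h (σ :: (σ * π) :: List.replicate m σ) (by simp; omega) (by
        intro x hx
        simp only [List.mem_cons, List.mem_replicate] at hx
        rcases hx with rfl | rfl | ⟨-, rfl⟩
        · exact ⟨1, one_mem n, by simp⟩
        · exact ⟨π, hπ, rfl⟩
        · exact ⟨1, one_mem n, by simp⟩)
      simp only [List.prod_cons, List.prod_replicate] at e
      rw [mul_left_cancel e]
      exact aff_of_mem hρ
    apply affine_of_conj hn σ
    intro b
    have h1 := aff_mul (key _ (refl_mem b)) (aff_inv (key 1 (one_mem n)))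
    have e : σ * Equiv.subLeft b * σ ^ m * (σ * 1 * σ ^ m)⁻¹ = σ * Equiv.subLeft b * σ⁻¹ := by
      group
    rwa [e] at h1
  · have key : ∀ π ∈ liftedDihedral n, IsAffine (σ ^ (m + 1) * π) := by
      intro π hπ
      obtain ⟨ρ, hρ, e⟩ := h (List.replicate (m + 1) σ ++ [π * σ]) (by simp; omega) (by
        intro x hx
        simp only [List.mem_append, List.mem_replicate, List.mem_singleton] at hx
        rcases hx with ⟨-, rfl⟩ | rfl
        · exact ⟨1, one_mem n, by simp⟩
        · exact ⟨π, hπ, rfl⟩)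
      simp only [List.prod_append, List.prod_replicate, List.prod_singleton] at e
      rw [← mul_assoc] at e
      rw [mul_right_cancel e]
      exact aff_of_mem hρ
    have key2 : ∀ π ∈ liftedDihedral n, IsAffine (σ ^ m * (π * σ)) := by
      intro π hπ
      obtain ⟨ρ, hρ, e⟩ := h (List.replicate m σ ++ [π * σ, σ]) (by simp; omega) (by
        intro x hx
        simp only [List.mem_append, List.mem_replicate, List.mem_cons, List.not_mem_nil,
          or_false] at hx
        rcases hx with ⟨-, rfl⟩ | rfl | rfl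
        · exact ⟨1, one_mem n, by simp⟩
        · exact ⟨π, hπ, rfl⟩
        · exact ⟨1, one_mem n, by simp⟩)
      simp only [List.prod_append, List.prod_replicate, List.prod_cons, List.prod_nil,
        mul_one] at e
      rw [← mul_assoc] at e
      rw [mul_right_cancel e]
      exact aff_of_mem hρ
    have h3 : IsAffine σ⁻¹ := by
      apply affine_of_conj hn σ⁻¹
      intro b
      have h1 := aff_mul (aff_inv (key 1 (one_mem n))) (key2 _ (refl_mem b))
      have e : (σ ^ (m + 1) * 1)⁻¹ * (σ ^ m * (Equiv.subLeft b * σ)) =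
          σ⁻¹ * Equiv.subLeft b * σ⁻¹⁻¹ := by
        group
      rwa [e] at h1
    simpa using aff_inv h3

end Pool.Agent.Results.MP_72c4d1_al.AllAffine
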